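import Pool.Agent.R632.VRC.Two

/-! Let `P` and `Q` be groups with property (VRC) and let `R ≤ P` and `S ≤ Q` be isomorphic
virtually cyclic subgroups. Then the amalgamated free product of `P` and `Q` with `R` and `S`
identified has property (VRC). -/

set_option linter.unusedSectionVars false
set_option linter.dupNamespace false

namespace Pool.Agent.Results.MP_61a31f_al.AmalgamOverVirtuallyCyclic

universe u

/-- `H` is a virtual retract of `G`: some subgroup `K` of finite index in `G` contains `H`, and
there is a homomorphism from `K` to `H` whose restriction to `H` is the identity. -/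
def IsVirtualRetract {G : Type u} [Group G] (H : Subgroup G) : Prop :=
  ∃ K : Subgroup G, K.FiniteIndex ∧ ∃ hHK : H ≤ K, ∃ r : K →* H,
    ∀ h : H, r ⟨(h : G), hHK h.2⟩ = h

/-- Property (VRC): every cyclic subgroup is a virtual retract. -/
def HasVRC (G : Type u) [Group G] : Prop :=
  ∀ g : G, IsVirtualRetract (Subgroup.zpowers g)

/-- A group is virtually cyclic if it has a cyclic subgroup of finite index. -/
def IsVirtuallyCyclic (G : Type u) [Group G] : Prop :=
  ∃ c : G, (Subgroup.zpowers c).FiniteIndex

section amalgam

variable {P Q : Type u} [Group P] [Group Q] (R : Subgroup P) (S : Subgroup Q) (e : R ≃* S)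

/-- The normal closure, in the free product of `P` and `Q`, of the elements `r * (e r)⁻¹` with
`r` in `R`. -/
def relators : Subgroup (Monoid.Coprod P Q) :=
  Subgroup.normalClosure (Set.range fun r : R =>
    (Monoid.Coprod.inl (r : P) : Monoid.Coprod P Q) * (Monoid.Coprod.inr (e r : Q))⁻¹)

instance : (relators R S e).Normal := Subgroup.normalClosure_normal

/-- The amalgamated free product: the quotient of the free product of `P` and `Q` in which every
element `r` of `R` is identified with the element `e r` of `S`. -/
abbrev AmalgamatedProduct : Type u := Monoid.Coprod P Q ⧸ relators R S e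

end amalgam

lemma toVRC {G : Type u} [Group G] (h : HasVRC G) : Pool.Agent.R632.VRC.VRC G := by
  intro g
  obtain ⟨K, hK, hgK, r, hr⟩ := h g
  refine ⟨K, hK, hgK, (Subgroup.zpowers g).subtype.comp r, fun k => (r k).2, fun k hk => ?_⟩
  exact congrArg Subtype.val (hr ⟨k, hk⟩)

lemma ofVRC {G : Type u} [Group G] (h : Pool.Agent.R632.VRC.VRC G) : HasVRC G := by
  intro g
  obtain ⟨K, hK, hgK, r, hr, hr'⟩ := h g
  refine ⟨K, hK, hgK, r.codRestrict _ hr, fun x => ?_⟩
  exact Subtype.ext (hr' ⟨x, hgK x.2⟩ x.2)

/-- The amalgamated free product of two groups with property (VRC) over isomorphic virtually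
cyclic subgroups has property (VRC). -/
theorem result {P Q : Type u} [Group P] [Group Q] (hP : HasVRC P) (hQ : HasVRC Q)
    (R : Subgroup P) (S : Subgroup Q) (e : R ≃* S) (hR : IsVirtuallyCyclic R) :
    HasVRC (AmalgamatedProduct R S e) := by
  obtain ⟨c, hc⟩ := hR
  let π : Monoid.Coprod P Q →* AmalgamatedProduct R S e := QuotientGroup.mk' (relators R S e)
  apply ofVRC
  refine Pool.Agent.R632.VRC.two (toVRC hP) (toVRC hQ) R.subtype (S.subtype.comp e.toMonoidHom)
    R.subtype_injective (S.subtype_injective.comp e.injective) c hc (π.comp Monoid.Coprod.inl)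
    (π.comp Monoid.Coprod.inr) ?_ ?_ ?_
  · intro r
    show π (Monoid.Coprod.inl (r : P)) = π (Monoid.Coprod.inr (e r : Q))
    rw [← mul_inv_eq_one, ← map_inv, ← map_mul]
    refine (QuotientGroup.eq_one_iff _).mpr ?_
    exact Subgroup.subset_normalClosure ⟨r, rfl⟩
  · intro W _ f g hfg
    have h1 : relators R S e ≤ (Monoid.Coprod.lift f g).ker := by
      refine Subgroup.normalClosure_le_normal ?_
      rintro _ ⟨r, rfl⟩
      show Monoid.Coprod.lift f g (Monoid.Coprod.inl (r : P) *
        (Monoid.Coprod.inr (e r : Q))⁻¹) = 1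
      rw [map_mul, map_inv, Monoid.Coprod.lift_apply_inl, Monoid.Coprod.lift_apply_inr,
        mul_inv_eq_one]
      exact hfg r
    refine ⟨QuotientGroup.lift (relators R S e) (Monoid.Coprod.lift f g) h1, fun p => ?_,
      fun q => ?_⟩
    · show Monoid.Coprod.lift f g (Monoid.Coprod.inl p) = f p
      exact Monoid.Coprod.lift_apply_inl ..
    · show Monoid.Coprod.lift f g (Monoid.Coprod.inr q) = g q
      exact Monoid.Coprod.lift_apply_inr ..
  · intro K h1 h2 x
    obtain ⟨y, rfl⟩ := QuotientGroup.mk'_surjective (relators R S e) x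
    induction y using Monoid.Coprod.induction_on with
    | inl p => exact h1 p
    | inr q => exact h2 q
    | mul x y hx hy =>
      rw [map_mul]
      exact K.mul_mem hx hy

end Pool.Agent.Results.MP_61a31f_al.AmalgamOverVirtuallyCyclic
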